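import Pool.Agent.H3RD.W830.RD.Stm

/-!
# Ordinal sum over the blocks between posts
-/

set_option autoImplicit false

namespace Pool.Agent.W348.RD.Osum

open Finset
open Pool.Agent.W830.RD
open scoped Classical

theorem gle_le {n : ℕ} {E : Finset (Fin n × Fin n)} (hE : E ⊆ Om n) {x y : Fin n}
    (h : gle E x y) : x ≤ y := by
  induction h with
  | refl => exact le_rfl
  | tail _ h2 ih =>
    have h3 := (Finset.mem_filter.1 (hE h2)).2
    exact ih.trans (le_of_lt h3)

/-- number of posts up to `x` -/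
noncomputable def blk {n : ℕ} (E : Finset (Fin n × Fin n)) (x : Fin n) : ℕ :=
  ((Finset.univ : Finset (Fin n)).filter (fun z => Post E z ∧ z ≤ x)).card

theorem blk_mono {n : ℕ} (E : Finset (Fin n × Fin n)) {x y : Fin n} (h : x ≤ y) :
    blk E x ≤ blk E y := by
  refine Finset.card_le_card fun z hz => ?_
  rw [Finset.mem_filter] at hz ⊢
  exact ⟨hz.1, hz.2.1, hz.2.2.trans h⟩

theorem blk_lt {n : ℕ} (E : Finset (Fin n × Fin n)) {x y z : Fin n} (hz : Post E z) (h1 : x < z)
    (h2 : z ≤ y) : blk E x < blk E y := by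
  refine Finset.card_lt_card ?_
  rw [Finset.ssubset_iff_of_subset]
  · refine ⟨z, ?_, ?_⟩
    · rw [Finset.mem_filter]
      exact ⟨Finset.mem_univ _, hz, h2⟩
    · rw [Finset.mem_filter]
      rintro ⟨-, -, h3⟩
      exact absurd h3 (not_le.2 h1)
  · intro w hw
    rw [Finset.mem_filter] at hw ⊢
    exact ⟨hw.1, hw.2.1, hw.2.2.trans (h1.le.trans h2)⟩

theorem exists_post {n : ℕ} (E : Finset (Fin n × Fin n)) {x y : Fin n} (h : blk E x < blk E y) :
    ∃ z, Post E z ∧ x < z ∧ z ≤ y := by
  by_contra hcon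
  push Not at hcon
  refine absurd h (not_lt.2 (Finset.card_le_card fun z hz => ?_))
  rw [Finset.mem_filter] at hz ⊢
  refine ⟨hz.1, hz.2.1, ?_⟩
  by_contra h3
  exact absurd hz.2.2 (not_le.2 (hcon z hz.2.1 (not_le.1 h3)))

theorem gle_of_blk {n : ℕ} {E : Finset (Fin n × Fin n)} (hE : E ⊆ Om n) {x y : Fin n}
    (h : blk E x < blk E y) : gle E x y := by
  obtain ⟨z, hz, hxz, hzy⟩ := exists_post E h
  have h1 : gle E x z := by
    rcases hz x with h | h
    · exact h
    · exact absurd (gle_le hE h) (not_le.2 hxz)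
  have h2 : gle E z y := by
    rcases hz y with h | h
    · have h3 : y = z := le_antisymm (gle_le hE h) hzy
      rw [h3]
      exact Relation.ReflTransGen.refl
    · exact h
  exact Relation.ReflTransGen.trans h1 h2

theorem main : S_OSUM := by
  intro n m k E hE hm hgap hk H
  set B : ℕ → Finset (Fin n) := fun t => Finset.univ.filter (fun x => blk E x = t) with hB
  have hBm : ∀ t x, x ∈ B t ↔ blk E x = t := by
    intro t x
    rw [hB]
    simp
  have hwin : ∀ t, ∃ v : ℕ, ∀ x ∈ B t, v ≤ (x : ℕ) ∧ (x : ℕ) < v + 2 * m := by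
    intro t
    by_cases hne : (B t).Nonempty
    · set x₀ := (B t).min' hne with hx₀
      have hx₀m : x₀ ∈ B t := Finset.min'_mem _ _
      refine ⟨(x₀ : ℕ), fun x hx => ⟨?_, ?_⟩⟩
      · exact Fin.le_def.1 (Finset.min'_le _ _ hx)
      · by_contra hlt
        push Not at hlt
        have hxn := x.2
        obtain ⟨z, hz1, hz2, hz⟩ := hgap ((x₀ : ℕ) + 1) (by omega)
        have h1 : x₀ < z := Fin.lt_def.2 (by omega)
        have h2 : z ≤ x := Fin.le_def.2 (by omega)
        have h3 := blk_lt E hz h1 h2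
        rw [(hBm t x₀).1 hx₀m, (hBm t x).1 hx] at h3
        exact lt_irrefl _ h3
    · refine ⟨0, fun x hx => ?_⟩
      exact absurd ⟨x, hx⟩ hne
  choose F hF1 hF2 using fun t => H (B t) (hwin t)
  set h : Fin k → Fin n → ℕ := fun i x => F (blk E x) i ⟨x, (hBm _ _).2 rfl⟩ with hh
  have hhF : ∀ i t x (hx : x ∈ B t), h i x = F t i ⟨x, hx⟩ := by
    intro i t x hx
    have h1 := (hBm t x).1 hx
    subst h1
    rfl
  set M : ℕ := 1 + ∑ i, ∑ x, h i x with hM
  have hlt : ∀ i x, h i x < M := by
    intro i x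
    have h1 : h i x ≤ ∑ x, h i x :=
      Finset.single_le_sum (f := fun x => h i x) (fun _ _ => Nat.zero_le _) (Finset.mem_univ x)
    have h2 : ∑ x, h i x ≤ ∑ i, ∑ x, h i x :=
      Finset.single_le_sum (f := fun i => ∑ x, h i x) (fun _ _ => Nat.zero_le _)
        (Finset.mem_univ i)
    omega
  have hcmp : ∀ i x y, blk E x < blk E y → blk E x * M + h i x < blk E y * M + h i y := by
    intro i x y hxy
    have h1 := hlt i x
    have h2 : (blk E x + 1) * M ≤ blk E y * M := Nat.mul_le_mul_right _ hxy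
    have h3 : (blk E x + 1) * M = blk E x * M + M := by ring
    omega
  refine ⟨fun i x => blk E x * M + h i x, fun i x y hxy => ?_, fun x y => ?_⟩
  · simp only at hxy
    rcases lt_trichotomy (blk E x) (blk E y) with h1 | h1 | h1
    · exact absurd hxy (hcmp i x y h1).ne
    · have hx : x ∈ B (blk E y) := (hBm _ _).2 h1
      have hy : y ∈ B (blk E y) := (hBm _ _).2 rfl
      rw [h1] at hxy
      have h2 : h i x = h i y := by omega
      rw [hhF i _ x hx, hhF i _ y hy] at h2
      exact congrArg Subtype.val (hF1 _ i h2)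
    · exact absurd hxy (hcmp i y x h1).ne'
  · rcases lt_trichotomy (blk E x) (blk E y) with h1 | h1 | h1
    · exact ⟨fun _ i => (hcmp i x y h1).le, fun _ => gle_of_blk hE h1⟩
    · have hx : x ∈ B (blk E y) := (hBm _ _).2 h1
      have hy : y ∈ B (blk E y) := (hBm _ _).2 rfl
      have h2 := hF2 (blk E y) ⟨x, hx⟩ ⟨y, hy⟩
      refine h2.trans (forall_congr' fun i => ?_)
      simp only
      rw [h1, hhF i _ x hx, hhF i _ y hy]
      exact (Nat.add_le_add_iff_left).symm
    · constructor
      · intro h2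
        exact absurd (blk_mono E (gle_le hE h2)) (not_le.2 h1)
      · intro h2
        exact absurd (h2 ⟨0, hk⟩) (not_le.2 (hcmp ⟨0, hk⟩ y x h1))

end Pool.Agent.W348.RD.Osum
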